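import Mathlib

set_option linter.unusedSectionVars false

namespace Pool.Agent.X143.LZ

open Finset Filter Topology

/-- partial sums -/
noncomputable def QQ (P : ℕ → ℕ → ℝ) (n k : ℕ) : ℝ := ∑ j ∈ range k, P n j

lemma core (P c : ℕ → ℕ → ℝ) (μ : ℕ → ℝ) (hP : ∀ n k, 0 < P n k) (hs : ∀ n, HasSum (P n) 1)
    (hμ : ∀ n, 0 < μ n) (hrec : ∀ n k, P (n + 1) k = P n k * (c n k) ^ 2 / μ n)
    (hub : ∀ n k, c (n + 1) k ≤ QQ P n (k + 1))
    (hlb : ∀ n k, (QQ P n k + QQ P n (k + 1)) / 2 ≤ c (n + 1) k) (N : ℕ) :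
    ∃ n ≥ N, ∃ k, 1 / 100 ≤ QQ P n k ∧ QQ P n k ≤ 99 / 100 := by
  by_contra hcon
  push Not at hcon
  have hQ0 : ∀ n, QQ P n 0 = 0 := fun n => by simp [QQ]
  have hQs : ∀ n k, QQ P n (k + 1) = QQ P n k + P n k := fun n k => by
    unfold QQ
    rw [Finset.sum_range_succ]
  have hQpos : ∀ n k, 0 ≤ QQ P n k := fun n k => Finset.sum_nonneg fun j _ => (hP n j).le
  have hQle : ∀ n k, QQ P n k ≤ 1 := fun n k => sum_le_hasSum _ (fun j _ => (hP n j).le) (hs n)
  have hQmono : ∀ n, Monotone (QQ P n) := fun n => monotone_nat_of_le_succ fun k => by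
    rw [hQs]
    linarith [hP n k]
  -- two blocks
  have htwo : ∀ n j k, j ≠ k → P n j + P n k ≤ 1 := by
    intro n j k hjk
    have h1 := sum_le_hasSum {j, k} (fun i _ => (hP n i).le) (hs n)
    rwa [Finset.sum_pair hjk] at h1
  -- the heavy block
  obtain ⟨kf, hkf⟩ : ∃ kf : ℕ → ℕ, ∀ n, N ≤ n →
      QQ P n (kf n) < 1 / 100 ∧ 99 / 100 < QQ P n (kf n + 1) := by
    have h1 : ∀ n, ∃ k, N ≤ n → QQ P n k < 1 / 100 ∧ 99 / 100 < QQ P n (k + 1) := by
      intro n
      by_cases hn : N ≤ n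
      · have h2 : ∃ k, 99 / 100 < QQ P n k := by
          have h3 : Tendsto (QQ P n) atTop (𝓝 1) := (hs n).tendsto_sum_nat
          exact ((tendsto_order.1 h3).1 (99 / 100) (by norm_num)).exists
        classical
        have h3 := Nat.find_spec h2
        have h4 : Nat.find h2 ≠ 0 := by
          intro h0
          rw [h0, hQ0] at h3
          norm_num at h3
        obtain ⟨k, hk⟩ := Nat.exists_eq_succ_of_ne_zero h4
        refine ⟨k, fun _ => ⟨?_, ?_⟩⟩
        · have h5 := Nat.find_min h2 (m := k) (by omega)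
          by_contra h6
          exact h5 (hcon n hn k (not_lt.1 h6))
        · rw [hk] at h3
          exact h3
      · exact ⟨0, fun h => absurd h hn⟩
    choose kf hkf using h1
    exact ⟨kf, hkf⟩
  have hheavy : ∀ n, N ≤ n → 98 / 100 < P n (kf n) := by
    intro n hn
    have h1 := hkf n hn
    have h2 := hQs n (kf n)
    linarith [h1.1, h1.2]
  have hlight : ∀ n, N ≤ n → ∀ j, j ≠ kf n → P n j < 2 / 100 := by
    intro n hn j hj
    have h1 := htwo n j (kf n) hj
    linarith [hheavy n hn]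
  have huniq : ∀ n, N ≤ n → ∀ j, 2 / 100 ≤ P n j → j = kf n := by
    intro n hn j hj
    by_contra hne
    linarith [hlight n hn j hne]
  -- monotonicity of `c`
  have hcmono : ∀ n, Monotone (c (n + 1)) := fun n => monotone_nat_of_le_succ fun k => by
    have h1 := hub n k
    have h2 := hlb n (k + 1)
    have h3 := hQmono n (Nat.le_succ (k + 1))
    have h4 : QQ P n (k + 1) ≤ QQ P n (k + 1 + 1) := h3
    linarith
  have hc0 : ∀ n k, 0 < c (n + 1) k := by
    intro n k
    have h1 := hlb n k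
    have h2 := hQs n k
    linarith [hQpos n k, hP n k]
  have hc1 : ∀ n k, c (n + 1) k ≤ 1 := fun n k => (hub n k).trans (hQle n _)
  -- the heavy block does not move down
  have hup : ∀ n, N ≤ n + 1 → kf (n + 1) ≤ kf (n + 1 + 1) := by
    intro n hn
    by_contra hlt
    rw [not_le] at hlt
    set a := kf (n + 1) with ha
    set b := kf (n + 1 + 1) with hb
    have h1 := hheavy (n + 1 + 1) (by omega)
    rw [← hb] at h1
    have h2 := hlight (n + 1 + 1) (by omega) a (by omega)
    have h3 := hheavy (n + 1) hn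
    rw [← ha] at h3
    have h4 := hlight (n + 1) hn b (by omega)
    rw [hrec (n + 1) b, lt_div_iff₀ (hμ _)] at h1
    rw [hrec (n + 1) a, div_lt_iff₀ (hμ _)] at h2
    have h5 := hcmono n hlt.le
    have h6 : (c (n + 1) b) ^ 2 ≤ (c (n + 1) a) ^ 2 := pow_le_pow_left₀ (hc0 n b).le h5 2
    have h7 : 0 < (c (n + 1) b) ^ 2 := pow_pos (hc0 n b) 2
    have h8 := hμ (n + 1)
    have h9 : P (n + 1) b * (c (n + 1) b) ^ 2 ≤ 2 / 100 * (c (n + 1) b) ^ 2 := by nlinarith
    have h10 : 98 / 100 * (c (n + 1) b) ^ 2 ≤ P (n + 1) a * (c (n + 1) a) ^ 2 := by nlinarith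
    nlinarith
  -- the heavy block is constant
  have hconst : ∀ n, N ≤ n + 1 → kf (n + 1 + 1 + 1) = kf (n + 1 + 1) := by
    intro n hn
    symm
    set k := kf (n + 1 + 1) with hk
    have h1 := hup n hn
    rw [← hk] at h1
    have h2 : 99 / 100 < QQ P (n + 1) (k + 1) := by
      have h3 := (hkf (n + 1) hn).2
      have h4 := hQmono (n + 1) (Nat.succ_le_succ h1)
      exact lt_of_lt_of_le h3 h4
    have h3 : 99 / 200 < c (n + 1 + 1) k := by
      have h4 := hlb (n + 1) k
      have h5 := hQpos (n + 1) k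
      linarith
    have h4 := hheavy (n + 1 + 1) (by omega)
    rw [← hk] at h4
    have h5 : P (n + 1 + 1) k * (c (n + 1 + 1) k) ^ 2 ≤ μ (n + 1 + 1) := by
      have h6 := le_hasSum (hs (n + 1 + 1 + 1)) k (fun j _ => (hP _ j).le)
      rw [hrec (n + 1 + 1) k, div_le_one (hμ _)] at h6
      exact h6
    have h6 : 24 / 100 < μ (n + 1 + 1) := by
      have h7 : (99 / 200 : ℝ) ^ 2 < (c (n + 1 + 1) k) ^ 2 := by
        apply pow_lt_pow_left₀ h3 (by norm_num) (by norm_num)
      nlinarith
    -- another block cannot become heavy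
    by_contra hne
    have h7 := hheavy (n + 1 + 1 + 1) (by omega)
    set b := kf (n + 1 + 1 + 1) with hb
    have h8 := hlight (n + 1 + 1) (by omega) b (fun h => hne (by rw [h]))
    rw [hrec (n + 1 + 1) b, lt_div_iff₀ (hμ _)] at h7
    have h9 : (c (n + 1 + 1) b) ^ 2 ≤ 1 := pow_le_one₀ (hc0 (n + 1) b).le (hc1 (n + 1) b)
    have h10 : 0 < (c (n + 1 + 1) b) ^ 2 := pow_pos (hc0 (n + 1) b) 2
    have h11 := hP (n + 1 + 1) b
    nlinarith
  -- stationary value
  set k := kf (N + 1 + 1) with hk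
  have hkn : ∀ n, kf (N + 1 + 1 + n) = k := by
    intro n
    induction n with
    | zero => rfl
    | succ n ih =>
      rw [← ih]
      have := hconst (N + n) (by omega)
      have e1 : N + n + 1 + 1 + 1 = N + 1 + 1 + (n + 1) := by omega
      have e2 : N + n + 1 + 1 = N + 1 + 1 + n := by omega
      rw [e1, e2] at this
      exact this
  -- the ratio grows
  set M := N + 1 + 1 with hM
  have hPk : ∀ n, 98 / 100 < P (M + n) k := by
    intro n
    have := hheavy (M + n) (by omega)
    rw [hkn n] at this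
    exact this
  set R : ℕ → ℝ := fun n => P (M + n) (k + 1) / P (M + n) k with hR
  have hRpos : ∀ n, 0 < R n := fun n => div_pos (hP _ _) (hP _ _)
  have hcratio : ∀ n, 1 + P (M + n) (k + 1) / 2 ≤ c (M + n + 1) (k + 1) / c (M + n + 1) k := by
    intro n
    rw [le_div_iff₀ (hc0 _ _)]
    have h1 := hub (M + n) k
    have h2 := hlb (M + n) (k + 1)
    have h3 := hQs (M + n) (k + 1)
    have h4 := hQle (M + n) (k + 1)
    have h5 := hP (M + n) (k + 1)
    have h6 := hc0 (M + n) k
    have h7 := hc1 (M + n) k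
    nlinarith
  have hRrec : ∀ n, R (n + 2) = R (n + 1) * (c (M + n + 1) (k + 1) / c (M + n + 1) k) ^ 2 := by
    intro n
    simp only [hR]
    have e1 : M + (n + 2) = M + n + 1 + 1 := by omega
    have e2 : M + (n + 1) = M + n + 1 := by omega
    rw [e1, e2, hrec (M + n + 1) (k + 1), hrec (M + n + 1) k]
    have h1 := (hP (M + n + 1) k).ne'
    have h2 := (hc0 (M + n) k).ne'
    have h3 := (hμ (M + n + 1)).ne'
    field_simp
  have hRmono : ∀ n, R (n + 1) ≤ R (n + 2) := by
    intro n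
    rw [hRrec]
    have h1 : 1 ≤ (c (M + n + 1) (k + 1) / c (M + n + 1) k) ^ 2 := by
      apply one_le_pow₀
      linarith [hcratio n, hP (M + n) (k + 1)]
    nlinarith [hRpos (n + 1)]
  have hRlow : ∀ n, R 1 ≤ R (n + 1) := by
    intro n
    induction n with
    | zero => exact le_rfl
    | succ n ih => exact ih.trans (hRmono n)
  have hRup : ∀ n, R n ≤ 1 := by
    intro n
    simp only [hR]
    rw [div_le_one (hP _ _)]
    have h1 := htwo (M + n) k (k + 1) (by omega)
    linarith [hPk n]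
  have hPlow : ∀ n, R 1 * (98 / 100) ≤ P (M + (n + 1)) (k + 1) := by
    intro n
    have h1 : P (M + (n + 1)) (k + 1) = R (n + 1) * P (M + (n + 1)) k := by
      simp only [hR]
      rw [div_mul_cancel₀]
      exact (hP _ _).ne'
    rw [h1]
    have h2 := hRlow n
    have h3 := hPk (n + 1)
    have h4 := hRpos 1
    have h5 := hRpos (n + 1)
    nlinarith
  set η : ℝ := R 1 * (98 / 100) / 2 with hη
  have hηpos : 0 < η := by
    have := hRpos 1
    positivity
  have hgrow : ∀ n, R (n + 2) * (1 + η) ≤ R (n + 3) := by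
    intro n
    have h1 := hRrec (n + 1)
    have e1 : n + 1 + 2 = n + 3 := by omega
    have e2 : n + 1 + 1 = n + 2 := by omega
    rw [e1, e2] at h1
    rw [h1]
    have h2 := hcratio (n + 1)
    have h3 := hPlow n
    have h4 : 1 + η ≤ c (M + (n + 1) + 1) (k + 1) / c (M + (n + 1) + 1) k := by
      rw [hη]
      linarith
    have h5 : 1 + η ≤ (c (M + (n + 1) + 1) (k + 1) / c (M + (n + 1) + 1) k) ^ 2 := by
      nlinarith
    exact mul_le_mul_of_nonneg_left h5 (hRpos _).le
  have hgeo : ∀ n, R 2 * (1 + η) ^ n ≤ R (n + 2) := by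
    intro n
    induction n with
    | zero => simp
    | succ n ih =>
      have h1 := hgrow n
      have e1 : n + 1 + 2 = n + 3 := by omega
      rw [e1]
      calc R 2 * (1 + η) ^ (n + 1) = (R 2 * (1 + η) ^ n) * (1 + η) := by ring
        _ ≤ R (n + 2) * (1 + η) := mul_le_mul_of_nonneg_right ih (by linarith)
        _ ≤ R (n + 3) := h1
  obtain ⟨n, hn⟩ := pow_unbounded_of_one_lt (1 / R 2) (by linarith : 1 < 1 + η)
  have h1 := (hgeo n).trans (hRup _)
  rw [div_lt_iff₀ (hRpos 2)] at hn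
  nlinarith

end Pool.Agent.X143.LZ
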