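import Mathlib

set_option linter.unusedSectionVars false

namespace Pool.Agent.X143.LZ

open MeasureTheory ENNReal Set Filter Topology

/-- Lebesgue measure on the block `(k, k+1]` -/
noncomputable def lam (k : ℕ) : Measure ℝ := volume.restrict (Ioc (k : ℝ) (k + 1))

instance (k : ℕ) : IsProbabilityMeasure (lam k) := by
  constructor
  unfold lam
  rw [Measure.restrict_apply_univ, Real.volume_Ioc]
  simp

/-- initial masses of the blocks -/
noncomputable def pp (k : ℕ) : ℝ≥0∞ := (2⁻¹) ^ (k + 1)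

lemma pp_pos (k : ℕ) : 0 < pp k := by
  unfold pp
  exact ENNReal.pow_pos (by simp) _

lemma pp_ne_top (k : ℕ) : pp k ≠ ∞ := by
  unfold pp
  exact ENNReal.pow_ne_top (by simp)

/-- weighted measure on the block `k` -/
noncomputable def mW (W : ℝ → ℝ≥0∞) (k : ℕ) : Measure ℝ := (lam k).withDensity W

instance (W : ℝ → ℝ≥0∞) (k : ℕ) : SFinite (mW W k) := by
  unfold mW
  infer_instance

/-- the weighted measure on the plane -/
noncomputable def Nt (W : ℝ → ℝ≥0∞) : Measure (ℝ × ℝ) :=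
  Measure.sum fun k => pp k • (mW W k).prod (mW W k)

lemma lintegral_Nt (W : ℝ → ℝ≥0∞) {f h : ℝ → ℝ≥0∞} (hf : Measurable f) (hh : Measurable h) :
    ∫⁻ v, f v.1 * h v.2 ∂(Nt W) = ∑' k, pp k * ((∫⁻ u, f u ∂(mW W k)) * ∫⁻ u, h u ∂(mW W k)) := by
  unfold Nt
  rw [lintegral_sum_measure]
  congr 1
  funext k
  rw [lintegral_smul_measure, lintegral_prod_mul hf.aemeasurable hh.aemeasurable]
  rfl

lemma Nt_rect (W : ℝ → ℝ≥0∞) {A B : Set ℝ} (hA : MeasurableSet A) (hB : MeasurableSet B) :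
    Nt W (A ×ˢ B) = ∑' k, pp k * (mW W k A * mW W k B) := by
  unfold Nt
  rw [Measure.sum_apply _ (hA.prod hB)]
  congr 1
  funext k
  rw [Measure.smul_apply, Measure.prod_prod]
  rfl

lemma Nt_fst (W : ℝ → ℝ≥0∞) {A : Set ℝ} (hA : MeasurableSet A) :
    Nt W {v | v.1 ∈ A} = ∑' k, pp k * (mW W k A * mW W k univ) := by
  rw [← Nt_rect W hA MeasurableSet.univ]
  congr 1
  ext v
  simp

lemma Nt_snd (W : ℝ → ℝ≥0∞) {A : Set ℝ} (hA : MeasurableSet A) :
    Nt W {v | v.2 ∈ A} = ∑' k, pp k * (mW W k A * mW W k univ) := by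
  have h1 : {v : ℝ × ℝ | v.2 ∈ A} = univ ×ˢ A := by
    ext v
    simp
  rw [h1, Nt_rect W MeasurableSet.univ hA]
  congr 1
  funext k
  rw [mul_comm (mW W k univ)]

lemma Nt_univ (W : ℝ → ℝ≥0∞) : Nt W univ = ∑' k, pp k * (mW W k univ * mW W k univ) := by
  rw [← univ_prod_univ, Nt_rect W MeasurableSet.univ MeasurableSet.univ]

/-- changing the weight -/
lemma lintegral_mW_mul {W g f : ℝ → ℝ≥0∞} (hW : Measurable W) (hg : Measurable g)
    (hf : Measurable f) (k : ℕ) :
    ∫⁻ u, f u ∂(mW (fun u => W u * g u) k) = ∫⁻ u, g u * f u ∂(mW W k) := by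
  unfold mW
  rw [show (fun u => W u * g u) = W * g from rfl,
    show (∫⁻ u, g u * f u ∂(lam k).withDensity W) = ∫⁻ u, (g * f) u ∂(lam k).withDensity W from rfl,
    lintegral_withDensity_eq_lintegral_mul _ (hW.mul hg) hf,
    lintegral_withDensity_eq_lintegral_mul _ hW (hg.mul hf)]
  congr 1
  funext u
  simp only [Pi.mul_apply]
  ring

/-- the density of `Nt (W g)` with respect to `Nt W`. -/
lemma Nt_mul_apply {W g : ℝ → ℝ≥0∞} (hW : Measurable W) (hg : Measurable g) {s : Set (ℝ × ℝ)}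
    (hs : MeasurableSet s) :
    Nt (fun u => W u * g u) s = ∫⁻ v in s, g v.1 * g v.2 ∂(Nt W) := by
  have hm : Measurable fun v : ℝ × ℝ => g v.1 * g v.2 :=
    (hg.comp measurable_fst).mul (hg.comp measurable_snd)
  rw [← lintegral_indicator hs]
  unfold Nt
  rw [Measure.sum_apply _ hs, lintegral_sum_measure]
  congr 1
  funext k
  rw [Measure.smul_apply, lintegral_smul_measure]
  congr 1
  have h1 : mW (fun u => W u * g u) k = (mW W k).withDensity g := by
    unfold mW
    exact withDensity_mul _ hW hg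
  rw [h1, prod_withDensity hg hg, withDensity_apply _ hs, lintegral_indicator hs]

lemma mW_ac (W : ℝ → ℝ≥0∞) (k : ℕ) : mW W k ≪ volume := by
  unfold mW lam
  exact (withDensity_absolutelyContinuous _ _).trans Measure.restrict_le_self.absolutelyContinuous

lemma mW_compl (W : ℝ → ℝ≥0∞) (k : ℕ) : mW W k (Ioc (k : ℝ) (k + 1))ᶜ = 0 := by
  unfold mW
  apply withDensity_absolutelyContinuous
  unfold lam
  rw [Measure.restrict_apply measurableSet_Ioc.compl, compl_inter_self, measure_empty]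

lemma mW_pos {W : ℝ → ℝ≥0∞} (hW : Measurable W) (hW0 : ∀ u, 0 < u → W u ≠ 0) {k : ℕ} {A : Set ℝ}
    (h : volume (A ∩ Ioc (k : ℝ) (k + 1)) ≠ 0) (hA : MeasurableSet A) : mW W k A ≠ 0 := by
  intro h0
  apply h
  have h1 : lam k ≪ mW W k := by
    unfold mW
    apply withDensity_absolutelyContinuous' hW.aemeasurable
    unfold lam
    rw [ae_restrict_iff' measurableSet_Ioc]
    refine Filter.Eventually.of_forall fun u hu => hW0 u ?_
    have : (0 : ℝ) ≤ k := Nat.cast_nonneg k
    exact lt_of_le_of_lt this hu.1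
  have h2 := h1 h0
  unfold lam at h2
  rwa [Measure.restrict_apply hA] at h2

/-- null sets of one coordinate -/
lemma Nt_fst_null (W : ℝ → ℝ≥0∞) {D : Set ℝ} (hD : volume D = 0) : ∀ᵐ v ∂(Nt W), v.1 ∉ D := by
  rw [ae_iff]
  simp only [not_not]
  obtain ⟨D', hDD', hD'm, hD'0⟩ := exists_measurable_superset_of_null hD
  refine measure_mono_null (t := {v : ℝ × ℝ | v.1 ∈ D'}) (fun v hv => hDD' hv) ?_
  rw [Nt_fst W hD'm, ENNReal.tsum_eq_zero]
  intro k
  rw [mW_ac W k hD'0, zero_mul, mul_zero]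

lemma Nt_snd_null (W : ℝ → ℝ≥0∞) {D : Set ℝ} (hD : volume D = 0) : ∀ᵐ v ∂(Nt W), v.2 ∉ D := by
  rw [ae_iff]
  simp only [not_not]
  obtain ⟨D', hDD', hD'm, hD'0⟩ := exists_measurable_superset_of_null hD
  refine measure_mono_null (t := {v : ℝ × ℝ | v.2 ∈ D'}) (fun v hv => hDD' hv) ?_
  rw [Nt_snd W hD'm, ENNReal.tsum_eq_zero]
  intro k
  rw [mW_ac W k hD'0, zero_mul, mul_zero]

lemma mW_Iic_zero (W : ℝ → ℝ≥0∞) (k : ℕ) : mW W k (Iic 0) = 0 := by
  refine measure_mono_null ?_ (mW_compl W k)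
  intro u hu hu'
  have h1 : (0 : ℝ) ≤ k := Nat.cast_nonneg k
  have h2 : u ≤ 0 := hu
  linarith [hu'.1]

lemma Nt_pos (W : ℝ → ℝ≥0∞) : ∀ᵐ v ∂(Nt W), 0 < v.1 ∧ 0 < v.2 := by
  have h1 : ∀ᵐ v ∂(Nt W), 0 < v.1 := by
    rw [ae_iff]
    have : {v : ℝ × ℝ | ¬ 0 < v.1} = {v | v.1 ∈ Iic (0 : ℝ)} := by
      ext v
      simp
    rw [this, Nt_fst W measurableSet_Iic, ENNReal.tsum_eq_zero]
    intro k
    rw [mW_Iic_zero, zero_mul, mul_zero]
  have h2 : ∀ᵐ v ∂(Nt W), 0 < v.2 := by
    rw [ae_iff]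
    have : {v : ℝ × ℝ | ¬ 0 < v.2} = {v | v.2 ∈ Iic (0 : ℝ)} := by
      ext v
      simp
    rw [this, Nt_snd W measurableSet_Iic, ENNReal.tsum_eq_zero]
    intro k
    rw [mW_Iic_zero, zero_mul, mul_zero]
  filter_upwards [h1, h2] with v a b using ⟨a, b⟩

lemma rearr {a b c d : ℝ≥0∞} (hab : a ≤ b) (hcd : c ≤ d) : a * d + b * c ≤ a * c + b * d := by
  obtain ⟨s, rfl⟩ := exists_add_of_le hab
  obtain ⟨t, rfl⟩ := exists_add_of_le hcd
  calc a * (c + t) + (a + s) * c ≤ a * (c + t) + (a + s) * c + s * t := le_self_add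
    _ = a * c + (a + s) * (c + t) := by ring

/-- Chebyshev's inequality for comonotone functions -/
lemma chebyshev (m : Measure ℝ) [IsFiniteMeasure m] {S : Set ℝ} (hS : m Sᶜ = 0)
    {f g : ℝ → ℝ≥0∞} (hf : Measurable f) (hg : Measurable g) (hfm : MonotoneOn f S)
    (hgm : MonotoneOn g S) :
    (∫⁻ u, f u ∂m) * (∫⁻ u, g u ∂m) ≤ m univ * ∫⁻ u, f u * g u ∂m := by
  have hae : ∀ᵐ u ∂m, u ∈ S := by
    rw [ae_iff]
    exact hS
  have h1 : ∫⁻ x, ∫⁻ y, (f x * g y + f y * g x) ∂m ∂m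
      ≤ ∫⁻ x, ∫⁻ y, (f x * g x + f y * g y) ∂m ∂m := by
    apply lintegral_mono_ae
    filter_upwards [hae] with x hx
    apply lintegral_mono_ae
    filter_upwards [hae] with y hy
    rcases le_total x y with hxy | hxy
    · have a := hfm hx hy hxy
      have b := hgm hx hy hxy
      exact rearr a b
    · have a := hfm hy hx hxy
      have b := hgm hy hx hxy
      have := rearr a b
      calc f x * g y + f y * g x = f y * g x + f x * g y := add_comm _ _
        _ ≤ f y * g y + f x * g x := this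
        _ = f x * g x + f y * g y := add_comm _ _
  have h2 : ∫⁻ x, ∫⁻ y, (f x * g y + f y * g x) ∂m ∂m
      = 2 * ((∫⁻ u, f u ∂m) * (∫⁻ u, g u ∂m)) := by
    have : ∀ x, ∫⁻ y, (f x * g y + f y * g x) ∂m
        = f x * (∫⁻ y, g y ∂m) + (∫⁻ y, f y ∂m) * g x := by
      intro x
      rw [lintegral_add_left (hg.const_mul _), lintegral_const_mul _ hg, lintegral_mul_const _ hf]
    simp_rw [this]
    rw [lintegral_add_left (hf.mul_const _), lintegral_mul_const _ hf, lintegral_const_mul _ hg]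
    ring
  have h3 : ∫⁻ x, ∫⁻ y, (f x * g x + f y * g y) ∂m ∂m
      = 2 * (m univ * ∫⁻ u, f u * g u ∂m) := by
    have hfg : Measurable fun u => f u * g u := hf.mul hg
    have : ∀ x, ∫⁻ y, (f x * g x + f y * g y) ∂m
        = f x * g x * m univ + ∫⁻ y, f y * g y ∂m := by
      intro x
      rw [lintegral_add_left measurable_const, lintegral_const]
    simp_rw [this]
    rw [lintegral_add_left (hfg.mul_const _), lintegral_mul_const _ hfg, lintegral_const]
    ring
  rw [h2, h3] at h1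
  exact (ENNReal.mul_le_mul_iff_right (by norm_num) (by norm_num)).1 h1

/-- the integral of the distribution function is at least half of the square of the mass -/
lemma half_square (m : Measure ℝ) [IsFiniteMeasure m] :
    m univ * m univ ≤ 2 * ∫⁻ u, m (Iic u) ∂m := by
  have hm1 : Measurable fun u => m (Iic u) :=
    Monotone.measurable fun u v huv => measure_mono (Iic_subset_Iic.2 huv)
  have hsym : ∫⁻ u, m (Ici u) ∂m = ∫⁻ u, m (Iic u) ∂m := by
    have h1 : ∀ u, m (Ici u) = ∫⁻ v, (if u ≤ v then 1 else 0) ∂m := by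
      intro u
      rw [← lintegral_indicator_one measurableSet_Ici]
      refine lintegral_congr fun v => ?_
      simp [indicator_apply]
    have h2 : ∀ v, m (Iic v) = ∫⁻ u, (if u ≤ v then 1 else 0) ∂m := by
      intro v
      rw [← lintegral_indicator_one measurableSet_Iic]
      refine lintegral_congr fun u => ?_
      simp [indicator_apply]
    simp_rw [h1, h2]
    apply lintegral_lintegral_swap
    apply Measurable.aemeasurable
    apply Measurable.ite _ measurable_const measurable_const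
    exact measurableSet_le measurable_fst measurable_snd
  have h1 : ∫⁻ _u, m univ ∂m ≤ ∫⁻ u, (m (Iic u) + m (Ici u)) ∂m := by
    refine lintegral_mono fun u => ?_
    rw [← Iic_union_Ici (a := u)]
    exact measure_union_le _ _
  rw [lintegral_const, lintegral_add_left hm1, hsym] at h1
  rw [two_mul]
  exact h1

end Pool.Agent.X143.LZ
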