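import Mathlib
import Pool.Agent.X143.LZ.Meas
import Pool.Agent.X143.LZ.Core

set_option linter.unusedSectionVars false

namespace Pool.Agent.X143.LZ

open MeasureTheory ENNReal Set Filter Topology

/-- normalised distribution function of the first coordinate -/
noncomputable def gn (W : ℝ → ℝ≥0∞) (u : ℝ) : ℝ≥0∞ := (Nt W univ)⁻¹ * Nt W {v | v.1 ≤ u}

/-- weight and transformation at step `n`. -/
noncomputable def st : ℕ → (ℝ → ℝ≥0∞) × (ℝ → ℝ≥0∞)
  | 0 => (fun _ => 1, fun u => ENNReal.ofReal u)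
  | n + 1 => (fun u => (st n).1 u * (st n).2 u, gn (st n).1)

/-- weights -/
noncomputable def Wf (n : ℕ) : ℝ → ℝ≥0∞ := (st n).1

/-- transformations -/
noncomputable def gf (n : ℕ) : ℝ → ℝ≥0∞ := (st n).2

lemma Wf_zero : Wf 0 = fun _ => 1 := rfl
lemma gf_zero : gf 0 = fun u => ENNReal.ofReal u := rfl
lemma Wf_succ (n : ℕ) : Wf (n + 1) = fun u => Wf n u * gf n u := rfl
lemma gf_succ (n : ℕ) : gf (n + 1) = gn (Wf n) := rfl

/-- total mass -/
noncomputable def ZZ (n : ℕ) : ℝ≥0∞ := Nt (Wf n) univ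

/-- mass of the weight on the block `k` -/
noncomputable def ww (n k : ℕ) : ℝ≥0∞ := mW (Wf n) k univ

lemma gn_mono (W : ℝ → ℝ≥0∞) : Monotone (gn W) := by
  intro u v huv
  unfold gn
  gcongr

lemma gf_mono (n : ℕ) : Monotone (gf n) := by
  cases n with
  | zero => exact fun u v huv => ENNReal.ofReal_le_ofReal huv
  | succ n => exact gn_mono _

lemma gf_meas (n : ℕ) : Measurable (gf n) := (gf_mono n).measurable

lemma Wf_meas (n : ℕ) : Measurable (Wf n) := by
  induction n with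
  | zero => exact measurable_const
  | succ n ih => exact ih.mul (gf_meas n)

lemma gn_le_one (W : ℝ → ℝ≥0∞) (u : ℝ) : gn W u ≤ 1 := by
  unfold gn
  calc (Nt W univ)⁻¹ * Nt W {v | v.1 ≤ u} ≤ (Nt W univ)⁻¹ * Nt W univ := by
        gcongr
        exact subset_univ _
    _ ≤ 1 := ENNReal.inv_mul_le_one _

lemma Wf_le (n : ℕ) (u : ℝ) : Wf n u ≤ max 1 (ENNReal.ofReal u) := by
  induction n with
  | zero => exact le_max_left _ _
  | succ n ih =>
    rw [Wf_succ]
    cases n with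
    | zero =>
      simp only [Wf_zero, gf_zero, one_mul]
      exact le_max_right _ _
    | succ n =>
      calc Wf (n + 1) u * gf (n + 1) u ≤ Wf (n + 1) u * 1 := by
            gcongr
            exact gn_le_one _ _
        _ ≤ _ := by
            rw [mul_one]
            exact ih

lemma ww_le (n k : ℕ) : ww n k ≤ (k : ℝ≥0∞) + 1 := by
  unfold ww mW
  rw [withDensity_apply _ MeasurableSet.univ, Measure.restrict_univ]
  have h1 : ∀ᵐ u ∂(lam k), Wf n u ≤ (k : ℝ≥0∞) + 1 := by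
    unfold lam
    rw [ae_restrict_iff' measurableSet_Ioc]
    refine Filter.Eventually.of_forall fun u hu => (Wf_le n u).trans (max_le ?_ ?_)
    · exact le_add_self
    · have : ENNReal.ofReal u ≤ ENNReal.ofReal ((k : ℝ) + 1) := ENNReal.ofReal_le_ofReal hu.2
      refine this.trans (le_of_eq ?_)
      rw [ENNReal.ofReal_add (by positivity) (by norm_num), ENNReal.ofReal_natCast,
        ENNReal.ofReal_one]
  calc ∫⁻ u, Wf n u ∂(lam k) ≤ ∫⁻ _u, ((k : ℝ≥0∞) + 1) ∂(lam k) := lintegral_mono_ae h1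
    _ = (k : ℝ≥0∞) + 1 := by simp

lemma ww_ne_top (n k : ℕ) : ww n k ≠ ∞ :=
  ne_top_of_le_ne_top (by simp) (ww_le n k)

instance (n k : ℕ) : IsFiniteMeasure (mW (Wf n) k) := ⟨lt_top_iff_ne_top.2 (ww_ne_top n k)⟩

lemma sum_bound : ∑' k : ℕ, pp k * (((k : ℝ≥0∞) + 1) * ((k : ℝ≥0∞) + 1)) ≠ ∞ := by
  have h1 : Summable fun k : ℕ => (1 / 2 : ℝ) ^ (k + 1) * (((k : ℝ) + 1) * ((k : ℝ) + 1)) := by
    have h2 : Summable fun n : ℕ => ((n : ℝ)) ^ 2 * (1 / 2 : ℝ) ^ n :=
      summable_pow_mul_geometric_of_norm_lt_one 2 (by norm_num)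
    have h3 := (summable_nat_add_iff 1).2 h2
    refine h3.congr fun k => ?_
    push_cast
    ring
  have h2 : ∀ k : ℕ, pp k * (((k : ℝ≥0∞) + 1) * ((k : ℝ≥0∞) + 1))
      = ENNReal.ofReal ((1 / 2 : ℝ) ^ (k + 1) * (((k : ℝ) + 1) * ((k : ℝ) + 1))) := by
    intro k
    rw [ENNReal.ofReal_mul (by positivity), ENNReal.ofReal_mul (by positivity),
      ENNReal.ofReal_pow (by norm_num), ENNReal.ofReal_add (by positivity) (by norm_num),
      ENNReal.ofReal_natCast, ENNReal.ofReal_one]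
    unfold pp
    congr 2
    rw [one_div, ENNReal.ofReal_inv_of_pos (by norm_num)]
    norm_num
  simp_rw [h2]
  rw [← ENNReal.ofReal_tsum_of_nonneg (fun k => by positivity) h1]
  exact ENNReal.ofReal_ne_top

lemma ZZ_eq (n : ℕ) : ZZ n = ∑' k, pp k * (ww n k * ww n k) := Nt_univ _

lemma ZZ_ne_top (n : ℕ) : ZZ n ≠ ∞ := by
  rw [ZZ_eq]
  refine ne_top_of_le_ne_top sum_bound (ENNReal.tsum_le_tsum fun k => ?_)
  gcongr <;> exact ww_le n k

/-- positivity for positive arguments, simultaneously -/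
lemma pos_all (n : ℕ) : (∀ u, 0 < u → Wf n u ≠ 0) ∧ (∀ u, 0 < u → gf n u ≠ 0) := by
  induction n with
  | zero =>
    refine ⟨fun u _ => one_ne_zero, fun u hu => ?_⟩
    rw [gf_zero]
    exact (ENNReal.ofReal_pos.2 hu).ne'
  | succ n ih =>
    refine ⟨fun u hu => ?_, fun u hu => ?_⟩
    · rw [Wf_succ]
      exact mul_ne_zero (ih.1 u hu) (ih.2 u hu)
    · rw [gf_succ]
      unfold gn
      refine mul_ne_zero (ENNReal.inv_ne_zero.2 (ZZ_ne_top n)) ?_
      have h1 : {v : ℝ × ℝ | v.1 ≤ u} = {v | v.1 ∈ Iic u} := rfl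
      rw [h1, Nt_fst _ measurableSet_Iic]
      intro h0
      rw [ENNReal.tsum_eq_zero] at h0
      have h2 := h0 0
      rw [mul_eq_zero, mul_eq_zero] at h2
      have hvol : ∀ a : ℝ, 0 < a → volume (Iic a ∩ Ioc ((0 : ℕ) : ℝ) ((0 : ℕ) + 1)) ≠ 0 := by
        intro a ha
        have h3 : Ioc 0 (min a 1) ⊆ Iic a ∩ Ioc ((0 : ℕ) : ℝ) ((0 : ℕ) + 1) := by
          intro t ht
          refine ⟨ht.2.trans (min_le_left _ _), ?_, ?_⟩
          · simpa using ht.1
          · simpa using ht.2.trans (min_le_right _ _)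
        intro h4
        have h5 := measure_mono_null h3 h4
        rw [Real.volume_Ioc, sub_zero, ENNReal.ofReal_eq_zero] at h5
        exact absurd (lt_min ha one_pos) (not_lt.2 h5)
      rcases h2 with h2 | h2 | h2
      · exact (pp_pos 0).ne' h2
      · exact mW_pos (Wf_meas n) ih.1 (hvol u hu) measurableSet_Iic h2
      · refine mW_pos (Wf_meas n) ih.1 (A := univ) ?_ MeasurableSet.univ h2
        intro h6
        exact hvol 1 one_pos (measure_mono_null (inter_subset_inter_left _ (subset_univ _)) h6)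

lemma Wf_ne_zero (n : ℕ) : ∀ u, 0 < u → Wf n u ≠ 0 := (pos_all n).1

lemma ww_pos (n k : ℕ) : 0 < ww n k := by
  rw [pos_iff_ne_zero]
  refine mW_pos (Wf_meas n) (Wf_ne_zero n) ?_ MeasurableSet.univ
  rw [univ_inter, Real.volume_Ioc]
  simp

lemma ZZ_pos (n : ℕ) : 0 < ZZ n := by
  rw [ZZ_eq, pos_iff_ne_zero]
  intro h0
  rw [ENNReal.tsum_eq_zero] at h0
  have h1 := h0 0
  exact (mul_ne_zero (pp_pos 0).ne' (mul_ne_zero (ww_pos n 0).ne' (ww_pos n 0).ne')) h1

lemma gf_ne_top (n : ℕ) (u : ℝ) : gf n u ≠ ∞ := by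
  cases n with
  | zero => exact ENNReal.ofReal_ne_top
  | succ n => exact ne_top_of_le_ne_top one_ne_top (gn_le_one _ _)

/-- the transformations are strictly increasing on `(0, ∞)` -/
lemma gf_strict (n : ℕ) : StrictMonoOn (gf n) (Ioi 0) := by
  intro u hu v hv huv
  cases n with
  | zero =>
    rw [gf_zero]
    exact (ENNReal.ofReal_lt_ofReal_iff hv).2 huv
  | succ n =>
    rw [gf_succ]
    unfold gn
    have hu0 : (0 : ℝ) < u := hu
    have h1 : {x : ℝ × ℝ | x.1 ≤ v} = {x | x.1 ≤ u} ∪ {x | x.1 ∈ Ioc u v} := by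
      ext x
      simp only [mem_ofPred_eq, mem_union, mem_Ioc]
      constructor
      · intro h
        rcases le_or_gt x.1 u with h' | h'
        · exact Or.inl h'
        · exact Or.inr ⟨h', h⟩
      · rintro (h | h)
        · exact h.trans huv.le
        · exact h.2
    have hdis : Disjoint {x : ℝ × ℝ | x.1 ≤ u} {x | x.1 ∈ Ioc u v} := by
      rw [Set.disjoint_left]
      intro x hx hx'
      exact absurd hx'.1 (not_lt.2 hx)
    have hm : MeasurableSet {x : ℝ × ℝ | x.1 ∈ Ioc u v} := measurable_fst measurableSet_Ioc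
    rw [h1, measure_union hdis hm, mul_add]
    apply ENNReal.lt_add_right
    · exact ENNReal.mul_ne_top (ENNReal.inv_ne_top.2 (ZZ_pos n).ne')
        (ne_top_of_le_ne_top (ZZ_ne_top n) (measure_mono (subset_univ _)))
    · refine mul_ne_zero (ENNReal.inv_ne_zero.2 (ZZ_ne_top n)) ?_
      rw [Nt_fst _ measurableSet_Ioc]
      intro h0
      rw [ENNReal.tsum_eq_zero] at h0
      set k := ⌊u⌋₊ with hk
      have hku : (k : ℝ) ≤ u := Nat.floor_le hu0.le
      have huk : u < k + 1 := Nat.lt_floor_add_one u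
      refine (mul_ne_zero (pp_pos k).ne' (mul_ne_zero ?_ (ww_pos n k).ne')) (h0 k)
      refine mW_pos (Wf_meas n) (Wf_ne_zero n) ?_ measurableSet_Ioc
      intro h2
      have h3 : Ioc u (min v (k + 1)) ⊆ Ioc u v ∩ Ioc (k : ℝ) (k + 1) := by
        intro t ht
        exact ⟨⟨ht.1, ht.2.trans (min_le_left _ _)⟩, lt_of_le_of_lt hku ht.1,
          ht.2.trans (min_le_right _ _)⟩
      have h4 := measure_mono_null h3 h2
      rw [Real.volume_Ioc, ENNReal.ofReal_eq_zero, sub_nonpos] at h4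
      exact absurd (lt_min huv huk) (not_lt.2 h4)

lemma gf_le_iff (n : ℕ) {u v : ℝ} (hu : 0 < u) (hv : 0 < v) : gf n u ≤ gf n v ↔ u ≤ v :=
  (gf_strict n).le_iff_le hu hv

/-! ### Real quantities -/

/-- block masses -/
noncomputable def Pr (n k : ℕ) : ℝ := (pp k * (ww n k * ww n k) / ZZ n).toReal

/-- block means -/
noncomputable def cc (n k : ℕ) : ℝ := (ww (n + 1) k / ww n k).toReal

/-- normalisation -/
noncomputable def mu (n : ℕ) : ℝ := (ZZ (n + 1) / ZZ n).toReal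

lemma term_ne_top (n k : ℕ) : pp k * (ww n k * ww n k) ≠ ∞ :=
  ENNReal.mul_ne_top (pp_ne_top k) (ENNReal.mul_ne_top (ww_ne_top n k) (ww_ne_top n k))

lemma Pr_pos (n k : ℕ) : 0 < Pr n k := by
  unfold Pr
  apply ENNReal.toReal_pos
  · exact (ENNReal.div_pos (mul_ne_zero (pp_pos k).ne' (mul_ne_zero (ww_pos n k).ne'
      (ww_pos n k).ne')) (ZZ_ne_top n)).ne'
  · exact ENNReal.div_ne_top (term_ne_top n k) (ZZ_pos n).ne'

lemma Pr_sum (n : ℕ) : HasSum (Pr n) 1 := by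
  have h1 : ∑' k, pp k * (ww n k * ww n k) / ZZ n = 1 := by
    simp_rw [ENNReal.div_eq_inv_mul]
    rw [ENNReal.tsum_mul_left, ← ZZ_eq, ENNReal.inv_mul_cancel (ZZ_pos n).ne' (ZZ_ne_top n)]
  have h2 : ∀ k, pp k * (ww n k * ww n k) / ZZ n ≠ ∞ := fun k =>
    ENNReal.div_ne_top (term_ne_top n k) (ZZ_pos n).ne'
  have h3 : Summable (Pr n) := ENNReal.summable_toReal (by rw [h1]; exact one_ne_top)
  have h4 : ∑' k, Pr n k = 1 := by
    unfold Pr
    rw [← ENNReal.tsum_toReal_eq h2, h1, ENNReal.toReal_one]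
  rw [← h4]
  exact h3.hasSum

lemma mu_pos (n : ℕ) : 0 < mu n := by
  unfold mu
  exact ENNReal.toReal_pos (ENNReal.div_pos (ZZ_pos _).ne' (ZZ_ne_top n)).ne'
    (ENNReal.div_ne_top (ZZ_ne_top _) (ZZ_pos n).ne')

lemma Pr_rec (n k : ℕ) : Pr (n + 1) k = Pr n k * (cc n k) ^ 2 / mu n := by
  unfold Pr cc mu
  simp only [ENNReal.toReal_mul, ENNReal.toReal_div]
  have h1 : (ww n k).toReal ≠ 0 := (ENNReal.toReal_pos (ww_pos n k).ne' (ww_ne_top n k)).ne'
  have h2 : (ZZ n).toReal ≠ 0 := (ENNReal.toReal_pos (ZZ_pos n).ne' (ZZ_ne_top n)).ne'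
  have h3 : (ZZ (n + 1)).toReal ≠ 0 :=
    (ENNReal.toReal_pos (ZZ_pos (n + 1)).ne' (ZZ_ne_top (n + 1))).ne'
  field_simp

/-- mass below `k` plus the fraction of block `k` -/
lemma gn_block (n k : ℕ) {u : ℝ} (hu : (k : ℝ) ≤ u) (hu' : u ≤ k + 1) :
    gf (n + 1) u = ∑ j ∈ Finset.range k, pp j * (ww n j * ww n j) / ZZ n
      + pp k * (mW (Wf n) k (Iic u) * ww n k) / ZZ n := by
  rw [gf_succ]
  unfold gn
  have h1 : {v : ℝ × ℝ | v.1 ≤ u} = {v | v.1 ∈ Iic u} := rfl
  rw [h1, Nt_fst _ measurableSet_Iic, ← ENNReal.tsum_mul_left,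
    ← Summable.sum_add_tsum_nat_add' (k := k + 1) ENNReal.summable, Finset.sum_range_succ]
  have hbelow : ∀ j ∈ Finset.range k, (Nt (Wf n) univ)⁻¹ * (pp j *
      (mW (Wf n) j (Iic u) * mW (Wf n) j univ)) = pp j * (ww n j * ww n j) / ZZ n := by
    intro j hj
    rw [Finset.mem_range] at hj
    have h2 : mW (Wf n) j (Iic u) = mW (Wf n) j univ := by
      apply le_antisymm (measure_mono (subset_univ _))
      have h3 : (univ : Set ℝ) ⊆ Iic u ∪ (Ioc (j : ℝ) (j + 1))ᶜ := by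
        intro t _
        by_cases ht : t ∈ Ioc (j : ℝ) (j + 1)
        · left
          have h4 : (j : ℝ) + 1 ≤ k := by exact_mod_cast hj
          exact ht.2.trans (h4.trans hu)
        · right
          exact ht
      refine (measure_mono h3).trans ((measure_union_le _ _).trans ?_)
      rw [mW_compl, add_zero]
    rw [h2, ENNReal.div_eq_inv_mul]
    rfl
  have habove : ∀ j : ℕ, (Nt (Wf n) univ)⁻¹ * (pp (j + (k + 1)) *
      (mW (Wf n) (j + (k + 1)) (Iic u) * mW (Wf n) (j + (k + 1)) univ)) = 0 := by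
    intro j
    have h2 : mW (Wf n) (j + (k + 1)) (Iic u) = 0 := by
      refine measure_mono_null ?_ (mW_compl (Wf n) (j + (k + 1)))
      intro t ht ht'
      have h3 : t ≤ u := ht
      have h4 := ht'.1
      push_cast at h4
      have h5 : (0 : ℝ) ≤ j := Nat.cast_nonneg j
      linarith
    rw [h2, zero_mul, mul_zero, mul_zero]
  rw [Finset.sum_congr rfl hbelow]
  simp_rw [habove]
  rw [tsum_zero, add_zero, ENNReal.div_eq_inv_mul (a := pp k * (mW (Wf n) k (Iic u) * ww n k))]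
  rfl

lemma gf_nat (n k : ℕ) : gf (n + 1) (k : ℝ)
    = ∑ j ∈ Finset.range k, pp j * (ww n j * ww n j) / ZZ n := by
  rw [gn_block n k le_rfl (by linarith)]
  have h2 : mW (Wf n) k (Iic (k : ℝ)) = 0 := by
    refine measure_mono_null ?_ (mW_compl (Wf n) k)
    intro t ht ht'
    have h3 : t ≤ k := ht
    linarith [ht'.1]
  rw [h2, zero_mul, mul_zero, ENNReal.zero_div, add_zero]

lemma QQ_eq (n k : ℕ) : QQ Pr n k = (gf (n + 1) (k : ℝ)).toReal := by
  rw [gf_nat, ENNReal.toReal_sum]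
  · rfl
  · intro j _
    exact ENNReal.div_ne_top (term_ne_top n j) (ZZ_pos n).ne'

lemma ww_succ (n k : ℕ) : ww (n + 1) k = ∫⁻ u, gf n u ∂(mW (Wf n) k) := by
  have h1 := lintegral_mW_mul (W := Wf n) (g := gf n) (f := fun _ => 1) (Wf_meas n) (gf_meas n)
    measurable_const k
  rw [lintegral_one] at h1
  simp only [mul_one] at h1
  exact h1

lemma cc_ub (n k : ℕ) : cc (n + 1) k ≤ QQ Pr n (k + 1) := by
  rw [QQ_eq]
  unfold cc
  apply ENNReal.toReal_mono (gf_ne_top _ _)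
  rw [ENNReal.div_le_iff (ww_pos _ _).ne' (ww_ne_top _ _), ww_succ]
  have hae : ∀ᵐ u ∂(mW (Wf (n + 1)) k), gf (n + 1) u ≤ gf (n + 1) ((k + 1 : ℕ) : ℝ) := by
    have h1 : ∀ᵐ u ∂(mW (Wf (n + 1)) k), u ∈ Ioc (k : ℝ) (k + 1) := by
      rw [ae_iff]
      exact mW_compl _ _
    filter_upwards [h1] with u hu
    apply gf_mono
    push_cast
    exact hu.2
  calc ∫⁻ u, gf (n + 1) u ∂(mW (Wf (n + 1)) k)
      ≤ ∫⁻ _u, gf (n + 1) ((k + 1 : ℕ) : ℝ) ∂(mW (Wf (n + 1)) k) := lintegral_mono_ae hae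
    _ = gf (n + 1) ((k + 1 : ℕ) : ℝ) * ww (n + 1) k := by
      rw [lintegral_const]
      rfl

lemma cc_lb (n k : ℕ) : (QQ Pr n k + QQ Pr n (k + 1)) / 2 ≤ cc (n + 1) k := by
  set m := mW (Wf n) k with hm
  have hw1 : ww (n + 1) k = ∫⁻ u, gf n u ∂m := ww_succ n k
  have hw2 : ww (n + 1 + 1) k = ∫⁻ u, gf n u * gf (n + 1) u ∂m := by
    rw [ww_succ]
    exact lintegral_mW_mul (Wf_meas n) (gf_meas n) (gf_meas (n + 1)) k
  -- Chebyshev
  have hcheb : (∫⁻ u, gf n u ∂m) * (∫⁻ u, gf (n + 1) u ∂m)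
      ≤ m univ * ∫⁻ u, gf n u * gf (n + 1) u ∂m :=
    chebyshev m (S := Ioc (k : ℝ) (k + 1)) (mW_compl _ _) (gf_meas n) (gf_meas (n + 1))
      ((gf_mono n).monotoneOn _) ((gf_mono (n + 1)).monotoneOn _)
  -- lower bound for the integral of `g_{n+1}`
  set a : ℝ≥0∞ := ∑ j ∈ Finset.range k, pp j * (ww n j * ww n j) / ZZ n with ha
  set b : ℝ≥0∞ := pp k * (ww n k * ww n k) / ZZ n with hb
  have hae : ∀ᵐ u ∂m, gf (n + 1) u = a + pp k * (m (Iic u) * ww n k) / ZZ n := by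
    have h1 : ∀ᵐ u ∂m, u ∈ Ioc (k : ℝ) (k + 1) := by
      rw [ae_iff]
      exact mW_compl _ _
    filter_upwards [h1] with u hu
    exact gn_block n k hu.1.le hu.2
  have hmeas : Measurable fun u => m (Iic u) :=
    Monotone.measurable fun u v huv => measure_mono (Iic_subset_Iic.2 huv)
  have hint : ∫⁻ u, gf (n + 1) u ∂m = a * ww n k
      + pp k * ww n k / ZZ n * ∫⁻ u, m (Iic u) ∂m := by
    rw [lintegral_congr_ae hae, lintegral_add_left measurable_const, lintegral_const]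
    have h1 : ∀ u, pp k * (m (Iic u) * ww n k) / ZZ n = (pp k * ww n k / ZZ n) * m (Iic u) := by
      intro u
      simp only [ENNReal.div_eq_inv_mul]
      ring
    simp_rw [h1]
    rw [lintegral_const_mul _ hmeas]
    rfl
  have hhalf := half_square m
  have hmuniv : m univ = ww n k := rfl
  rw [hmuniv] at hhalf hcheb
  -- combine : `(2 a + b) w * ww (n+1) ≤ 2 w * ww (n+2)`
  have hkey : (2 * a + b) * ww n k ≤ 2 * ∫⁻ u, gf (n + 1) u ∂m := by
    rw [hint]
    calc (2 * a + b) * ww n k = 2 * (a * ww n k) + pp k * ww n k / ZZ n * (ww n k * ww n k) := by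
          rw [hb]
          simp only [ENNReal.div_eq_inv_mul]
          ring
      _ ≤ 2 * (a * ww n k) + pp k * ww n k / ZZ n * (2 * ∫⁻ u, m (Iic u) ∂m) := by
          gcongr
      _ = _ := by ring
  have hfin : (2 * a + b) * ww (n + 1) k ≤ 2 * ww (n + 1 + 1) k := by
    have h1 : ww n k * ((2 * a + b) * ww (n + 1) k) ≤ ww n k * (2 * ww (n + 1 + 1) k) := by
      calc ww n k * ((2 * a + b) * ww (n + 1) k)
          = ((2 * a + b) * ww n k) * ww (n + 1) k := by ring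
        _ ≤ (2 * ∫⁻ u, gf (n + 1) u ∂m) * ww (n + 1) k := by gcongr
        _ = 2 * ((∫⁻ u, gf n u ∂m) * (∫⁻ u, gf (n + 1) u ∂m)) := by
            rw [hw1]
            ring
        _ ≤ 2 * (ww n k * ∫⁻ u, gf n u * gf (n + 1) u ∂m) := by gcongr
        _ = ww n k * (2 * ww (n + 1 + 1) k) := by
            rw [hw2]
            ring
    exact (ENNReal.mul_le_mul_iff_right (ww_pos n k).ne' (ww_ne_top n k)).1 h1
  -- to reals
  have hatop : a ≠ ∞ := by
    rw [ha]
    exact ENNReal.sum_ne_top.2 fun j _ => ENNReal.div_ne_top (term_ne_top n j) (ZZ_pos n).ne'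
  have hbtop : b ≠ ∞ := ENNReal.div_ne_top (term_ne_top n k) (ZZ_pos n).ne'
  have hreal := ENNReal.toReal_mono (ENNReal.mul_ne_top (by norm_num) (ww_ne_top (n + 1 + 1) k)) hfin
  rw [ENNReal.toReal_mul, ENNReal.toReal_mul, ENNReal.toReal_add
    (ENNReal.mul_ne_top (by norm_num) hatop) hbtop, ENNReal.toReal_mul] at hreal
  have hQ : QQ Pr n k = a.toReal := by
    rw [QQ_eq, gf_nat]
  have hQ1 : QQ Pr n (k + 1) = a.toReal + b.toReal := by
    have : QQ Pr n (k + 1) = QQ Pr n k + Pr n k := by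
      unfold QQ
      rw [Finset.sum_range_succ]
    rw [this, hQ]
    rfl
  rw [hQ, hQ1]
  unfold cc
  rw [ENNReal.toReal_div (ww (n + 1 + 1) k) (ww (n + 1) k),
    le_div_iff₀ (ENNReal.toReal_pos (ww_pos _ _).ne' (ww_ne_top _ _))]
  have h2 : (2 : ℝ≥0∞).toReal = 2 := by norm_num
  rw [h2] at hreal
  linarith

end Pool.Agent.X143.LZ
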